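import Pool.Agent.Helper19.HN.St

/-!
# HN (MP_dbe07f_lc), module DC: downward closed sets are given by an element of HOD
-/

namespace Pool.Agent.Helper91.HN.DC

open Ordinal Cardinal ZFSet Order Pool.Agent.Helper73.HODC Pool.Agent.Helper73.HM
open Pool.Agent.Helper73.HE Pool.Agent.Helper73.HU Pool.Agent.Helper19.HN

theorem dc (h : StRK) : StDC := by
  intro τ A K hA hK hdown
  by_cases hall : ∀ x ∈ hodPow τ, K x
  · exact ⟨(Order.succ τ).toZFSet, HOD_toZFSet _, fun x =>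
      ⟨fun hx => ⟨hK x hx, fun h' => absurd h' (succ_not_mem τ)⟩, fun hx => hall x hx.1⟩⟩
  · push Not at hall
    obtain ⟨rk, hrk⟩ := h τ A hA
    obtain ⟨x0, hx0, hx0K⟩ := hall
    obtain ⟨z, ⟨hz, hzK⟩, hmin⟩ :=
      (InvImage.wf rk (wellFounded_lt : WellFounded ((· < ·) : Ordinal.{0} → Ordinal.{0} → Prop))).has_min
        {x | x ∈ hodPow τ ∧ ¬ K x} ⟨x0, hx0, hx0K⟩
    refine ⟨z, HOD_of_mem hz, fun x => ⟨fun hx => ⟨hK x hx, fun _ => ?_⟩, fun hx => ?_⟩⟩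
    · rcases Prec.tri hA (hK x hx) hz with h1 | h1 | h1
      · exact h1
      · exact absurd (h1 ▸ hx) hzK
      · exact absurd (hdown x z hx hz h1) hzK
    · by_contra hxK
      exact hmin x ⟨hx.1, hxK⟩ (((hrk x hx.1 z hz).1).1 (hx.2 hz))

end Pool.Agent.Helper91.HN.DC
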